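import Mathlib

open MeasureTheory Filter Topology

namespace Run7.h863.MQ

/-- comparison with the Gaussian characteristic function -/
theorem ode {φ φ' : ℝ → ℂ} {s ε : ℝ} (hs : 0 ≤ s) (h0 : φ 0 = 1)
    (hd : ∀ r, HasDerivAt φ (φ' r) r)
    (hb : ∀ r ∈ Set.Icc (0 : ℝ) 1, ‖φ' r + ((r * s : ℝ) : ℂ) * φ r‖ ≤ ε) :
    ‖φ 1 - ((Real.exp (-(s / 2)) : ℝ) : ℂ)‖ ≤ ε := by
  have hε : 0 ≤ ε := (norm_nonneg _).trans (hb 0 ⟨le_rfl, zero_le_one⟩)
  have hE : ∀ r : ℝ, HasDerivAt (fun r : ℝ => ((Real.exp (s / 2 * r ^ 2) : ℝ) : ℂ))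
      ((Real.exp (s / 2 * r ^ 2) * (r * s) : ℝ) : ℂ) r := by
    intro r
    have h1 : HasDerivAt (fun r : ℝ => s / 2 * r ^ 2) (r * s) r := by
      have := (hasDerivAt_pow 2 r).const_mul (s / 2)
      exact this.congr_deriv (by norm_num; ring)
    exact (h1.exp).ofReal_comp
  have hF : ∀ r : ℝ, HasDerivAt (fun r : ℝ => φ r * ((Real.exp (s / 2 * r ^ 2) : ℝ) : ℂ))
      ((φ' r + ((r * s : ℝ) : ℂ) * φ r) * ((Real.exp (s / 2 * r ^ 2) : ℝ) : ℂ)) r := by
    intro r
    have := (hd r).fun_mul (hE r)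
    exact this.congr_deriv (by push_cast; ring)
  have hmain := Convex.norm_image_sub_le_of_norm_hasDerivWithin_le
    (f := fun r : ℝ => φ r * ((Real.exp (s / 2 * r ^ 2) : ℝ) : ℂ))
    (f' := fun r : ℝ => (φ' r + ((r * s : ℝ) : ℂ) * φ r) * ((Real.exp (s / 2 * r ^ 2) : ℝ) : ℂ))
    (C := ε * Real.exp (s / 2)) (s := Set.Icc (0 : ℝ) 1) (x := 0) (y := 1)
    (fun r _ => (hF r).hasDerivWithinAt) (fun r hr => by
      rw [norm_mul, Complex.norm_real, Real.norm_of_nonneg (Real.exp_pos _).le]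
      refine mul_le_mul (hb r hr) (Real.exp_le_exp.2 ?_) (Real.exp_pos _).le hε
      have : r ^ 2 ≤ 1 := pow_le_one₀ hr.1 hr.2
      nlinarith) (convex_Icc 0 1) ⟨le_rfl, zero_le_one⟩ ⟨zero_le_one, le_rfl⟩
  simp only [h0] at hmain
  norm_num at hmain
  have e1 : φ 1 - ((Real.exp (-(s / 2)) : ℝ) : ℂ) =
      (φ 1 * Complex.exp ((s : ℂ) / 2) - 1) * ((Real.exp (-(s / 2)) : ℝ) : ℂ) := by
    push_cast
    rw [sub_mul, mul_assoc, ← Complex.exp_add]
    simp
  rw [e1, norm_mul, Complex.norm_real, Real.norm_of_nonneg (Real.exp_pos _).le]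
  calc _ ≤ (ε * Real.exp (s / 2)) * Real.exp (-(s / 2)) :=
        mul_le_mul_of_nonneg_right hmain (Real.exp_pos _).le
    _ = ε := by rw [mul_assoc, ← Real.exp_add]; simp

section

variable {Ω : Type*} [TopologicalSpace Ω] [CompactSpace Ω] [MeasurableSpace Ω]
  [OpensMeasurableSpace Ω]

theorem intg {E : Type*} [NormedAddCommGroup E] [SecondCountableTopology E] (Q : Measure Ω) [IsFiniteMeasure Q]
    {f : Ω → E} (hf : Continuous f) : Integrable f Q := by
  obtain ⟨C, hC⟩ := isCompact_univ.exists_bound_of_continuousOn hf.continuousOn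
  exact Integrable.of_bound hf.aestronglyMeasurable C
    (Eventually.of_forall fun x => hC x (Set.mem_univ x))

theorem char_deriv (Q : Measure Ω) [IsProbabilityMeasure Q] {X : Ω → ℝ} (hX : Continuous X)
    (r : ℝ) : HasDerivAt (fun r : ℝ => ∫ ω, Complex.exp (Complex.I * ((r * X ω : ℝ) : ℂ)) ∂Q)
      (∫ ω, Complex.I * X ω * Complex.exp (Complex.I * ((r * X ω : ℝ) : ℂ)) ∂Q) r := by
  obtain ⟨C, hC⟩ := isCompact_univ.exists_bound_of_continuousOn hX.continuousOn
  have hn : ∀ (t : ℝ) (ω : Ω), ‖Complex.exp (Complex.I * ((t * X ω : ℝ) : ℂ))‖ = 1 := by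
    intro t ω
    rw [mul_comm]
    exact Complex.norm_exp_ofReal_mul_I _
  refine (hasDerivAt_integral_of_dominated_loc_of_deriv_le (μ := Q)
    (F := fun (t : ℝ) ω => Complex.exp (Complex.I * ((t * X ω : ℝ) : ℂ)))
    (F' := fun (t : ℝ) ω => Complex.I * X ω * Complex.exp (Complex.I * ((t * X ω : ℝ) : ℂ)))
    (bound := fun _ => C) (s := Set.univ) univ_mem ?_ ?_ ?_ ?_ ?_ ?_).2
  · refine Eventually.of_forall fun t => ?_
    exact (by fun_prop : Continuous fun ω =>
      Complex.exp (Complex.I * ((t * X ω : ℝ) : ℂ))).aestronglyMeasurable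
  · exact intg Q (by fun_prop)
  · exact (by fun_prop : Continuous fun ω =>
      Complex.I * X ω * Complex.exp (Complex.I * ((r * X ω : ℝ) : ℂ))).aestronglyMeasurable
  · refine Eventually.of_forall fun ω t _ => ?_
    rw [norm_mul, norm_mul, Complex.norm_I, Complex.norm_real, one_mul]
    rw [hn t ω, mul_one]
    exact hC ω (Set.mem_univ ω)
  · exact integrable_const _
  · refine Eventually.of_forall fun ω t _ => ?_
    have h1 : HasDerivAt (fun t : ℝ => Complex.I * ((t * X ω : ℝ) : ℂ)) (Complex.I * X ω) t := by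
      have h2 : HasDerivAt (fun t : ℝ => t * X ω) (X ω) t := by
        simpa using (hasDerivAt_id t).mul_const (X ω)
      simpa using (h2.ofReal_comp).const_mul Complex.I
    have h3 := h1.cexp
    rw [mul_comm] at h3
    exact h3

/-- the characteristic function -/
theorem char (Q : Measure Ω) [IsProbabilityMeasure Q] {X E1 E2 : Ω → ℝ} (hX : Continuous X)
    (h1 : Continuous E1) (h2 : Continuous E2) {s ε : ℝ} (hs : 0 ≤ s)
    (he : ∀ r : ℝ, ∫ ω, (((X ω + E1 ω : ℝ) : ℂ) - Complex.I * ((r * (s + E2 ω) : ℝ) : ℂ)) *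
      Complex.exp (Complex.I * ((r * X ω : ℝ) : ℂ)) ∂Q = 0)
    (hb : ∫ ω, (|E1 ω| + |E2 ω|) ∂Q ≤ ε) :
    |∫ ω, Real.cos (X ω) ∂Q - Real.exp (-(s / 2))| ≤ ε ∧ |∫ ω, Real.sin (X ω) ∂Q| ≤ ε := by
  have hn : ∀ (t : ℝ) (ω : Ω), ‖Complex.exp (Complex.I * ((t * X ω : ℝ) : ℂ))‖ = 1 := by
    intro t ω
    rw [mul_comm]
    exact Complex.norm_exp_ofReal_mul_I _
  have key := ode (φ := fun r : ℝ => ∫ ω, Complex.exp (Complex.I * ((r * X ω : ℝ) : ℂ)) ∂Q)
    (φ' := fun r => ∫ ω, Complex.I * X ω * Complex.exp (Complex.I * ((r * X ω : ℝ) : ℂ)) ∂Q)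
    (s := s) (ε := ε) hs (by simp) (fun r => char_deriv Q hX r) (by
      intro r hr
      have e1 : ∫ ω, Complex.I * X ω * Complex.exp (Complex.I * ((r * X ω : ℝ) : ℂ)) ∂Q +
          ((r * s : ℝ) : ℂ) * ∫ ω, Complex.exp (Complex.I * ((r * X ω : ℝ) : ℂ)) ∂Q =
          ∫ ω, (-(Complex.I * E1 ω) - ((r * E2 ω : ℝ) : ℂ)) *
            Complex.exp (Complex.I * ((r * X ω : ℝ) : ℂ)) ∂Q := by
        have h3 := congrArg (fun z => Complex.I * z) (he r)
        simp only [mul_zero] at h3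
        rw [← integral_const_mul] at h3
        rw [← integral_const_mul, ← integral_add (intg Q (by fun_prop)) (intg Q (by fun_prop)),
          ← sub_eq_zero, ← integral_sub (intg Q (by fun_prop)) (intg Q (by fun_prop)), ← h3]
        refine integral_congr_ae (Eventually.of_forall fun ω => ?_)
        simp only
        push_cast
        have hI : Complex.I * Complex.I = -1 := Complex.I_mul_I
        linear_combination ((r * (s + E2 ω)) * Complex.exp (Complex.I * (r * X ω)) : ℂ) * hI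
      rw [e1]
      refine (norm_integral_le_integral_norm _).trans (le_trans ?_ hb)
      refine integral_mono (intg Q (by fun_prop)) (intg Q (by fun_prop)) fun ω => ?_
      simp only
      rw [norm_mul, hn, mul_one]
      refine (norm_sub_le _ _).trans ?_
      rw [norm_neg, norm_mul, Complex.norm_I, one_mul, Complex.norm_real, Complex.norm_real,
        Real.norm_eq_abs, Real.norm_eq_abs, abs_mul]
      have : |r| * |E2 ω| ≤ 1 * |E2 ω| :=
        mul_le_mul_of_nonneg_right (by rw [abs_of_nonneg hr.1]; exact hr.2) (abs_nonneg _)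
      linarith)
  simp only [one_mul] at key
  have hre : (∫ ω, Complex.exp (Complex.I * ((X ω : ℝ) : ℂ)) ∂Q).re = ∫ ω, Real.cos (X ω) ∂Q := by
    refine (integral_re (f := fun ω => Complex.exp (Complex.I * ((X ω : ℝ) : ℂ)))
      (intg Q (by fun_prop))).symm.trans ?_
    refine integral_congr_ae (Eventually.of_forall fun ω => ?_)
    simp [Complex.exp_re]
  have him : (∫ ω, Complex.exp (Complex.I * ((X ω : ℝ) : ℂ)) ∂Q).im = ∫ ω, Real.sin (X ω) ∂Q := by
    refine (integral_im (f := fun ω => Complex.exp (Complex.I * ((X ω : ℝ) : ℂ)))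
      (intg Q (by fun_prop))).symm.trans ?_
    refine integral_congr_ae (Eventually.of_forall fun ω => ?_)
    simp [Complex.exp_im]
  constructor
  · have := (Complex.abs_re_le_norm _).trans key
    rwa [Complex.sub_re, Complex.ofReal_re, hre] at this
  · have := (Complex.abs_im_le_norm _).trans key
    rwa [Complex.sub_im, Complex.ofReal_im, sub_zero, him] at this

end

end Run7.h863.MQ
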