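import Pool.Agent.Run7.h630.MQ.Iface
import Pool.Agent.Run7.h4.YM.Sys
import Pool.Agent.Run7.h863.MQ.F0

open MeasureTheory Matrix Filter Topology
open scoped Matrix.Norms.Frobenius ComplexConjugate

namespace Run7.h863.MQ

open Run7.h4.YM Run7.h630.ML Run7.h630.MQ

noncomputable section

set_option maxHeartbeats 200000

variable {N n L l : ℕ}

theorem c_lp (x : Site n L l) : Continuous fun U : Link n L l → SU N => Run7.h630.MQ.lp U x := by
  unfold Run7.h630.MQ.lp
  exact continuous_list_prod _ fun t _ => continuous_apply _

theorem c_lpc (c : ℕ) (x : Site n L l) :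
    Continuous fun U : Link n L l → SU N => (Run7.h630.MQ.lp U x ^ c).1 :=
  continuous_subtype_val.comp ((c_lp x).pow c)

theorem c_W (c : ℕ) (x : Site n L l) : Continuous fun U : Link n L l → SU N => W c U x :=
  Continuous.matrix_trace (c_lpc c x)

theorem c_md (k : ℕ) (j : ℕ × ℤ) (u : ZMod n × ZMod L) :
    Continuous fun U : Link n L l → SU N => md k U j u := by
  unfold md
  exact continuous_finsetSum _ fun t _ => continuous_const.mul (c_W _ _)

theorem c_four {X : Type*} [TopologicalSpace X] {f g h j : X → SU N} (hf : Continuous f)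
    (hg : Continuous g) (hh : Continuous h) (hj : Continuous j) :
    Continuous fun U => (f U * g U * (h U)⁻¹ * (j U)⁻¹).1 :=
  continuous_subtype_val.comp (((hf.mul hg).mul hh.inv).mul hj.inv)

theorem c_plaq (x : Site n L l) (i j : Fin 4) :
    Continuous fun U : Link n L l → SU N => (plaq U x i j).1 :=
  c_four (continuous_apply (i, x)) (continuous_apply (j, x + dir i))
    (continuous_apply (i, x + dir j)) (continuous_apply (j, x))

theorem c_smul {X : Type*} [TopologicalSpace X] (c : ℂ) {f : X → Mt N} (hf : Continuous f) :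
    Continuous fun x => c • f x :=
  continuous_pi fun i => continuous_pi fun j => continuous_const.mul (hf.matrix_elem i j)

theorem c_Fd (k : ℕ) (x : Site n L l) (j : Fin 4) :
    Continuous fun U : Link n L l → SU N => Fd k U x j := by
  unfold Fd
  exact (c_smul _ (c_plaq x j 2)).sub continuous_const

theorem c_Te [NeZero l] (k : ℕ) (u : ZMod n × ZMod L) :
    Continuous fun U : Link n L l → SU N => Te k U u := by
  unfold Te
  exact continuous_finsetSum _ fun y _ => continuous_finsetSum _ fun j _ =>
    ((c_Fd k _ j).norm).pow 2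

theorem c_pr {X : Type*} [TopologicalSpace X] {f : X → Mt N} (hf : Continuous f) :
    Continuous fun x => pr (f x) := by
  unfold pr
  have h1 : Continuous fun x => f x - (f x)ᴴ := hf.sub hf.matrix_conjTranspose
  exact (c_smul _ h1).sub ((h1.matrix_trace.div_const _).smul continuous_const)

theorem c_Yv (c : ℕ) (a : Site n L l → ℂ) (x : Site n L l) :
    Continuous fun U : Link n L l → SU N => Yv c a U x := by
  unfold Yv
  exact c_pr (c_smul _ (c_lpc c x))

theorem c_dW (c d : ℕ) (a : Site n L l → ℂ) (x : Site n L l) :
    Continuous fun U : Link n L l → SU N => dW c U (Yv d a U) x := by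
  unfold dW
  exact continuous_const.mul (continuous_finsetSum _ fun t _ =>
    Continuous.matrix_trace ((c_Yv d a _).matrix_mul (c_lpc c _)))

theorem c_dmd (k d : ℕ) (a : Site n L l → ℂ) (i : ℕ × ℤ) (u : ZMod n × ZMod L) :
    Continuous fun U : Link n L l → SU N => dmd k U (Yv d a U) i u := by
  unfold dmd
  exact continuous_finsetSum _ fun t _ => continuous_const.mul (c_dW _ _ _ _)

theorem c_dS [NeZero n] [NeZero L] [NeZero l] (k d : ℕ) (a : Site n L l → ℂ) :
    Continuous fun U : Link n L l → SU N => dS k U (Yv d a U) := by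
  unfold dS
  have hU : ∀ e : Link n L l, Continuous fun U : Link n L l → SU N => (U e).1 := fun e =>
    continuous_subtype_val.comp (continuous_apply e)
  refine Continuous.neg (continuous_finsetSum _ fun x _ => continuous_finsetSum _ fun j _ =>
    Complex.continuous_re.comp (continuous_const.mul (Continuous.matrix_trace ?_)))
  exact ((((hU _).matrix_mul (c_Yv d a _)).matrix_mul (hU _).matrix_conjTranspose).matrix_mul
    (c_plaq _ _ _)).sub ((c_plaq _ _ _).matrix_mul (c_Yv d a _))

variable [MeasurableSpace (SU N)] [BorelSpace (SU N)]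

/-- the Gibbs measure -/
def gm [NeZero n] [NeZero L] [NeZero l] (μ : Measure (SU N)) (k : ℕ) (β : ℝ) :
    Measure (Link n L l → SU N) :=
  (Measure.pi fun _ : Link n L l => μ).tilted fun U => -(β * action k U)

section

variable [NeZero n] [NeZero L] [NeZero l] (μ : Measure (SU N)) [IsProbabilityMeasure μ]
  (k : ℕ) (β : ℝ)

theorem i_exp : Integrable (fun U : Link n L l → SU N => Real.exp (-(β * action k U)))
    (Measure.pi fun _ : Link n L l => μ) :=
  intg _ (Real.continuous_exp.comp ((continuous_const.mul (cont_action k)).neg))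

instance : IsProbabilityMeasure (gm (n := n) (L := L) (l := l) μ k β) :=
  isProbabilityMeasure_tilted (i_exp μ k β)

theorem expect_eq (f : (Link n L l → SU N) → ℝ) :
    expect μ k β f = ∫ U, f U ∂(gm μ k β) := by
  unfold expect gm
  rw [integral_tilted, ← integral_div]
  refine integral_congr_ae (Eventually.of_forall fun U => ?_)
  simp only [smul_eq_mul]
  ring

theorem zero_of (F : (Link n L l → SU N) → ℂ)
    (h : ∫ U, F U * ((Real.exp (-(β * action k U)) : ℝ) : ℂ)
      ∂(Measure.pi fun _ : Link n L l => μ) = 0) :
    ∫ U, F U ∂(gm μ k β) = 0 := by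
  unfold gm
  rw [integral_tilted]
  have : ∀ U : Link n L l → SU N, (Real.exp (-(β * action k U)) /
      ∫ U, Real.exp (-(β * action k U)) ∂(Measure.pi fun _ : Link n L l => μ)) • F U =
      (((∫ U, Real.exp (-(β * action k U)) ∂(Measure.pi fun _ : Link n L l => μ))⁻¹ : ℝ) : ℂ) *
        (F U * ((Real.exp (-(β * action k U)) : ℝ) : ℂ)) := by
    intro U
    rw [Complex.real_smul]
    push_cast
    ring
  simp only [this]
  rw [integral_const_mul, h, mul_zero]

end

end

end Run7.h863.MQ
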