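import Pool.Agent.Run7.h863.MQ.F2

open MeasureTheory Matrix Filter Topology
open scoped Matrix.Norms.Frobenius ComplexConjugate

namespace Run7.h863.MQ

open Run7.h4.YM Run7.h630.ML Run7.h630.MQ

noncomputable section

set_option maxHeartbeats 1000000

theorem Te_nonneg {N n L l : ℕ} [NeZero l] (k : ℕ) (U : Link n L l → SU N)
    (u : ZMod n × ZMod L) : 0 ≤ Te k U u := by
  unfold Te
  positivity

theorem sqrt_le_lin {t a : ℝ} (ht : 0 ≤ t) (ha : 0 < a) : Real.sqrt t ≤ (t / a + a) / 2 := by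
  have h1 : Real.sqrt t * Real.sqrt t = t := Real.mul_self_sqrt ht
  have h2 : 0 ≤ (Real.sqrt t - a) ^ 2 := sq_nonneg _
  have h3 : t / a * a = t := div_mul_cancel₀ _ ha.ne'
  have h4 : 2 * Real.sqrt t * a ≤ (t / a + a) * a := by nlinarith
  nlinarith [le_of_mul_le_mul_right h4 ha]

/-- the final estimate -/
theorem final_bound {N l : ℕ} (hN : 1 ≤ N) (hl : 1 ≤ l) {C β G WG : ℝ} (hC : 0 < C)
    (hβ : 1 ≤ β) (hG : 0 ≤ G) (hWG : 0 ≤ WG) :
    18 * Real.sqrt β * N ^ 4 * l ^ 2 * G * (C * l ^ 2 * (1 + Real.log β) / β) +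
      2 * N ^ 4 * l ^ 2 / Real.sqrt β * G +
      N ^ 6 * l ^ 3 * WG * Real.sqrt (C * l ^ 2 * (1 + Real.log β) / β) ≤
    (18 * C * N ^ 4 + 2 * N ^ 4 + N ^ 6 * Real.sqrt C) *
      (l ^ 4 * (1 + Real.log β) / Real.sqrt β * G +
        l ^ 4 * Real.sqrt ((1 + Real.log β) / β) * WG) := by
  have hβ0 : 0 < β := by linarith
  have hs : 0 < Real.sqrt β := Real.sqrt_pos.2 hβ0
  have hlog : 0 ≤ Real.log β := Real.log_nonneg hβ
  have hss : Real.sqrt β * Real.sqrt β = β := Real.mul_self_sqrt hβ0.le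
  have hl' : (1 : ℝ) ≤ l := by exact_mod_cast hl
  have hN' : (1 : ℝ) ≤ N := by exact_mod_cast hN
  have e1 : 18 * Real.sqrt β * N ^ 4 * l ^ 2 * G * (C * l ^ 2 * (1 + Real.log β) / β) =
      18 * C * N ^ 4 * (l ^ 4 * (1 + Real.log β) / Real.sqrt β * G) := by
    have : (1 + Real.log β) / Real.sqrt β = Real.sqrt β * (1 + Real.log β) / β := by
      rw [div_eq_div_iff hs.ne' hβ0.ne']
      linear_combination (-(1 + Real.log β)) * hss
    rw [mul_div_assoc ((l : ℝ) ^ 4), this]
    ring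
  have e2 : 2 * N ^ 4 * l ^ 2 / Real.sqrt β * G ≤
      2 * N ^ 4 * (l ^ 4 * (1 + Real.log β) / Real.sqrt β * G) := by
    have h1 : (l : ℝ) ^ 2 ≤ l ^ 4 * (1 + Real.log β) := by
      have h2 : (l : ℝ) ^ 2 ≤ l ^ 4 := pow_le_pow_right₀ hl' (by norm_num)
      have h3 : (l : ℝ) ^ 4 * 1 ≤ l ^ 4 * (1 + Real.log β) :=
        mul_le_mul_of_nonneg_left (by linarith) (by positivity)
      linarith
    have h4 : (l : ℝ) ^ 2 / Real.sqrt β ≤ l ^ 4 * (1 + Real.log β) / Real.sqrt β :=
      div_le_div_of_nonneg_right h1 hs.le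
    calc 2 * (N : ℝ) ^ 4 * l ^ 2 / Real.sqrt β * G =
        2 * N ^ 4 * (l ^ 2 / Real.sqrt β * G) := by ring
      _ ≤ _ := mul_le_mul_of_nonneg_left (mul_le_mul_of_nonneg_right h4 hG) (by positivity)
  have e3 : N ^ 6 * l ^ 3 * WG * Real.sqrt (C * l ^ 2 * (1 + Real.log β) / β) =
      N ^ 6 * Real.sqrt C * (l ^ 4 * Real.sqrt ((1 + Real.log β) / β) * WG) := by
    have : Real.sqrt (C * l ^ 2 * (1 + Real.log β) / β) =
        Real.sqrt C * l * Real.sqrt ((1 + Real.log β) / β) := by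
      rw [show C * (l : ℝ) ^ 2 * (1 + Real.log β) / β = C * ((l : ℝ) ^ 2 *
        ((1 + Real.log β) / β)) by ring, Real.sqrt_mul hC.le, Real.sqrt_mul (by positivity),
        Real.sqrt_sq (by positivity)]
      ring
    rw [this]
    ring
  set A := (l : ℝ) ^ 4 * (1 + Real.log β) / Real.sqrt β * G
  set B := (l : ℝ) ^ 4 * Real.sqrt ((1 + Real.log β) / β) * WG
  have hA : 0 ≤ A := by positivity
  have hB : 0 ≤ B := by positivity
  rw [e1, e3]
  have h5 : 0 ≤ N ^ 6 * Real.sqrt C * A := by positivity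
  have h6 : 0 ≤ (18 * C * N ^ 4 + 2 * N ^ 4) * B := by positivity
  nlinarith

theorem t_F : S_A → S_B → S_C → S_E → S_F := by
  intro hA hB hC hE N k _ hk _ _ μ _ _
  obtain ⟨C, hC0, hTe⟩ := hE N k hk μ
  have hN1 : 1 ≤ N := Nat.one_le_iff_ne_zero.2 (NeZero.ne N)
  have hN0 : (0 : ℝ) < N := by exact_mod_cast hN1
  refine ⟨18 * C * N ^ 4 + 2 * N ^ 4 + N ^ 6 * Real.sqrt C, by positivity, ?_⟩
  intro m m' l _ _ _ β hβ J hJ w g hw
  have hl1 : 1 ≤ l := Nat.one_le_iff_ne_zero.2 (NeZero.ne l)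
  have hl0 : (0 : ℝ) < l := by exact_mod_cast hl1
  have hβ0 : 0 < β := by linarith
  have hs : 0 < Real.sqrt β := Real.sqrt_pos.2 hβ0
  have hlog : 0 ≤ Real.log β := Real.log_nonneg hβ
  set h : ℕ × ℤ → ZMod (2 * m) × ZMod (2 * m') → ℂ :=
    fun j u => ((-(j.1 / Real.sqrt β) : ℝ) : ℂ) * g j u with hh
  choose D hDc hDb hDe using fun j : ℕ × ℤ =>
    hC N (2 * m) (2 * m') l k μ β j.1 (av N k j (h j)) J w
  set Y : (ℕ × ℤ) → (Link (2 * m) (2 * m') l → SU N) → ℝ :=
    fun j U => dS k U (Yv j.1 (av N k j (h j)) U) with hY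
  set M : (ℕ × ℤ) → (Link (2 * m) (2 * m') l → SU N) → ℝ :=
    fun j U => ∑ i ∈ J, (∑ u, w i u * dmd k U (Yv j.1 (av N k j (h j)) U) i u).re with hM
  set P : (Link (2 * m) (2 * m') l → SU N) → ℝ :=
    fun U => ∑ i ∈ J, (∑ u, w i u * md k U i u).re with hP
  have cY : ∀ j, Continuous (Y j) := fun j => c_dS k j.1 _
  have cM : ∀ j, Continuous (M j) := fun j => continuous_finsetSum _ fun i _ =>
    Complex.continuous_re.comp (continuous_finsetSum _ fun u _ =>
      continuous_const.mul (c_dmd k j.1 _ i u))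
  have cP : Continuous P := continuous_finsetSum _ fun i _ =>
    Complex.continuous_re.comp (continuous_finsetSum _ fun u _ =>
      continuous_const.mul (c_md k i u))
  set s : ℝ := ∑ j ∈ J, N * j.1 ^ 2 * l ^ 2 / 2 * (∑ u, w j u * conj (g j u)).re with hsdef
  set E1 : (Link (2 * m) (2 * m') l → SU N) → ℝ :=
    fun U => ∑ j ∈ J, (β * Y j U - D j U) - Real.sqrt β * P U with hE1
  set E2 : (Link (2 * m) (2 * m') l → SU N) → ℝ :=
    fun U => ∑ j ∈ J, Real.sqrt β * M j U - s with hE2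
  have cE1 : Continuous E1 := (continuous_finsetSum _ fun j _ =>
    (continuous_const.mul (cY j)).sub (hDc j)).sub (continuous_const.mul cP)
  have cE2 : Continuous E2 := (continuous_finsetSum _ fun j _ =>
    continuous_const.mul (cM j)).sub continuous_const
  have hs0 : 0 ≤ s := by
    refine Finset.sum_nonneg fun j hj => mul_nonneg (by positivity) ?_
    rw [hw j hj]
    exact KK_pos (by linarith [Real.cos_le_one (mass N k j / l)]) _
  -- the equation
  have he : ∀ r : ℝ, ∫ U, (((Real.sqrt β * P U + E1 U : ℝ) : ℂ) -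
      Complex.I * ((r * (s + E2 U) : ℝ) : ℂ)) *
      Complex.exp (Complex.I * ((r * (Real.sqrt β * P U) : ℝ) : ℂ)) ∂(gm μ k β) = 0 := by
    intro r
    have e0 : ∀ U, (((Real.sqrt β * P U + E1 U : ℝ) : ℂ) -
        Complex.I * ((r * (s + E2 U) : ℝ) : ℂ)) *
        Complex.exp (Complex.I * ((r * (Real.sqrt β * P U) : ℝ) : ℂ)) =
        ∑ j ∈ J, (((β * Y j U - D j U : ℝ) : ℂ) -
          Complex.I * (((r * Real.sqrt β) * M j U : ℝ) : ℂ)) *
          Complex.exp (Complex.I * (((r * Real.sqrt β) * P U : ℝ) : ℂ)) := by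
      intro U
      rw [← Finset.sum_mul, mul_assoc r (Real.sqrt β) (P U), Finset.sum_sub_distrib,
        ← Finset.mul_sum]
      congr 2
      · rw [hE1]
        push_cast
        ring
      · rw [hE2]
        congr 1
        rw [← Complex.ofReal_sum]
        congr 1
        simp only [add_sub_cancel]
        rw [Finset.mul_sum]
        exact Finset.sum_congr rfl fun j _ => by ring
    simp only [e0]
    rw [integral_finsetSum]
    · refine Finset.sum_eq_zero fun j _ => ?_
      exact zero_of μ k β _ (hDe j (r * Real.sqrt β))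
    · intro j _
      have c1 := cY j
      have c2 := hDc j
      have c3 := cM j
      exact intg _ (by fun_prop)
  -- the bound
  set τ : ℝ := C * l ^ 2 * (1 + Real.log β) / β with hτ
  have hτ0 : 0 < τ := by positivity
  set a : ℝ := Real.sqrt τ with ha
  have ha0 : 0 < a := Real.sqrt_pos.2 hτ0
  have haa : τ / a = a := by rw [ha, Real.div_sqrt]
  set K1 : ZMod (2 * m) × ZMod (2 * m') → ℝ := fun u => ∑ j ∈ J, Real.sqrt β *
    (3 * N ^ 4 * l ^ 2 * (4 * ‖g j u‖ + ‖g j (u + (1, 0))‖ + ‖g j (u + (0, 1))‖)) with hK1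
  set K2 : ZMod (2 * m) × ZMod (2 * m') → ℝ := fun u => ∑ j ∈ J, ∑ i ∈ J,
    ‖w i u‖ * (N ^ 6 * l ^ 3 * ‖g j u‖) with hK2
  set G : ℝ := ∑ j ∈ J, ∑ u, ‖g j u‖ with hG
  set WG : ℝ := ∑ i ∈ J, ∑ j ∈ J, ∑ u, ‖w i u‖ * ‖g j u‖ with hWG
  have k1 : ∀ u, 0 ≤ K1 u := fun u => by positivity
  have k2 : ∀ u, 0 ≤ K2 u := fun u => by positivity
  have bE1 : ∀ U, |E1 U| ≤ ∑ u, K1 u * Te k U u + 2 * N ^ 4 * l ^ 2 / Real.sqrt β * G := by
    intro U
    have e1 : E1 U = ∑ j ∈ J, ((β * Y j U - Real.sqrt β * (∑ u, w j u * md k U j u).re) +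
        -D j U) := by
      rw [hE1, hP]
      simp only
      rw [Finset.mul_sum, ← Finset.sum_sub_distrib]
      exact Finset.sum_congr rfl fun j _ => by ring
    have e2 : ∑ u, K1 u * Te k U u = ∑ j ∈ J, Real.sqrt β * (3 * N ^ 4 * l ^ 2 *
        ∑ u, (4 * ‖g j u‖ + ‖g j (u + (1, 0))‖ + ‖g j (u + (0, 1))‖) * Te k U u) := by
      rw [hK1]
      simp only [Finset.sum_mul, Finset.mul_sum]
      rw [Finset.sum_comm]
      exact Finset.sum_congr rfl fun j _ => Finset.sum_congr rfl fun u _ => by ring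
    rw [e1, e2, hG, Finset.mul_sum, ← Finset.sum_add_distrib]
    refine (Finset.abs_sum_le_sum_abs _ _).trans (Finset.sum_le_sum fun j hj => ?_)
    obtain ⟨j1, j2, j3, j4⟩ := hJ j hj
    refine (abs_add_le _ _).trans (add_le_add (b1 hA hk U j j1 j2 hβ (w j) (g j) (hw j hj)) ?_)
    rw [abs_neg]
    refine (hDb j U).trans ?_
    rw [sum_av]
    have hc : (j.1 : ℝ) ≤ N := by exact_mod_cast j2.le
    have hc0 : (0 : ℝ) ≤ j.1 := by positivity
    have e3 : ∑ u, ‖h j u‖ = j.1 / Real.sqrt β * ∑ u, ‖g j u‖ := by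
      rw [Finset.mul_sum]
      refine Finset.sum_congr rfl fun u _ => ?_
      rw [hh]
      simp only
      rw [norm_mul, Complex.norm_real, Real.norm_eq_abs, abs_neg,
        abs_of_nonneg (div_nonneg hc0 hs.le)]
    rw [e3]
    have h6 : (j.1 : ℝ) * j.1 ≤ N * N := mul_le_mul hc hc hc0 hN0.le
    have h7 : (0 : ℝ) ≤ 2 * N ^ 2 * l ^ 2 / Real.sqrt β * ∑ u, ‖g j u‖ := by positivity
    calc 2 * (N : ℝ) ^ 2 * j.1 * (l ^ 2 * (j.1 / Real.sqrt β * ∑ u, ‖g j u‖)) =
        (j.1 * j.1) * (2 * N ^ 2 * l ^ 2 / Real.sqrt β * ∑ u, ‖g j u‖) := by ring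
      _ ≤ (N * N) * (2 * N ^ 2 * l ^ 2 / Real.sqrt β * ∑ u, ‖g j u‖) :=
        mul_le_mul_of_nonneg_right h6 h7
      _ = _ := by ring
  have bE2 : ∀ U, |E2 U| ≤ ∑ u, K2 u * ((Te k U u / a + a) / 2) := by
    intro U
    have e1 : E2 U = ∑ j ∈ J, (Real.sqrt β * M j U -
        N * j.1 ^ 2 * l ^ 2 / 2 * (∑ u, w j u * conj (g j u)).re) := by
      rw [hE2, hsdef]
      simp only
      rw [← Finset.sum_sub_distrib]
    have e2 : ∑ u, K2 u * ((Te k U u / a + a) / 2) = ∑ j ∈ J, ∑ i ∈ J, ∑ u, ‖w i u‖ *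
        (N ^ 6 * l ^ 3 * (‖g j u‖ * ((Te k U u / a + a) / 2))) := by
      rw [hK2]
      simp only [Finset.sum_mul]
      rw [Finset.sum_comm]
      refine Finset.sum_congr rfl fun j _ => ?_
      rw [Finset.sum_comm]
      exact Finset.sum_congr rfl fun i _ => Finset.sum_congr rfl fun u _ => by ring
    rw [e1, e2]
    refine (Finset.abs_sum_le_sum_abs _ _).trans (Finset.sum_le_sum fun j hj => ?_)
    refine (b2 hB hk U hβ J hJ w (g j) j hj).trans ?_
    refine Finset.sum_le_sum fun i _ => Finset.sum_le_sum fun u _ => ?_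
    refine mul_le_mul_of_nonneg_left (mul_le_mul_of_nonneg_left ?_ (by positivity))
      (norm_nonneg _)
    exact mul_le_mul_of_nonneg_left (sqrt_le_lin (Te_nonneg k U u) ha0) (norm_nonneg _)
  have iTe : ∀ u, ∫ U, Te k U u ∂(gm (n := 2 * m) (L := 2 * m') (l := l) μ k β) ≤ τ := by
    intro u
    rw [← expect_eq]
    exact hTe m m' l β hβ u
  have hb : ∫ U, (|E1 U| + |E2 U|) ∂(gm μ k β) ≤
      18 * Real.sqrt β * N ^ 4 * l ^ 2 * G * τ + 2 * N ^ 4 * l ^ 2 / Real.sqrt β * G +
      N ^ 6 * l ^ 3 * WG * a := by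
    have cT : ∀ u, Continuous fun U : Link (2 * m) (2 * m') l → SU N => Te k U u :=
      fun u => c_Te k u
    have cT2 : ∀ u, Continuous fun U : Link (2 * m) (2 * m') l → SU N =>
        (K1 u + K2 u / (2 * a)) * Te k U u := fun u => continuous_const.mul (cT u)
    have cT3 : Continuous fun U : Link (2 * m) (2 * m') l → SU N =>
        ∑ u, (K1 u + K2 u / (2 * a)) * Te k U u := continuous_finsetSum _ fun u _ => cT2 u
    have cF : Continuous fun U : Link (2 * m) (2 * m') l → SU N =>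
        ∑ u, (K1 u + K2 u / (2 * a)) * Te k U u +
          (2 * N ^ 4 * l ^ 2 / Real.sqrt β * G + ∑ u, K2 u * (a / 2)) :=
      (continuous_finsetSum _ fun u _ => continuous_const.mul (cT u)).add continuous_const
    calc ∫ U, (|E1 U| + |E2 U|) ∂(gm μ k β) ≤
        ∫ U : Link (2 * m) (2 * m') l → SU N, (∑ u, (K1 u + K2 u / (2 * a)) * Te k U u +
          (2 * N ^ 4 * l ^ 2 / Real.sqrt β * G + ∑ u, K2 u * (a / 2))) ∂(gm μ k β) := by
          refine integral_mono (intg _ (cE1.abs.add cE2.abs)) (intg _ cF) fun U => ?_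
          have e : ∑ u, (K1 u + K2 u / (2 * a)) * Te k U u +
              (2 * N ^ 4 * l ^ 2 / Real.sqrt β * G + ∑ u, K2 u * (a / 2)) =
              (∑ u, K1 u * Te k U u + 2 * N ^ 4 * l ^ 2 / Real.sqrt β * G) +
                ∑ u, K2 u * ((Te k U u / a + a) / 2) := by
            have : ∑ u, (K1 u + K2 u / (2 * a)) * Te k U u + ∑ u, K2 u * (a / 2) =
                ∑ u, K1 u * Te k U u + ∑ u, K2 u * ((Te k U u / a + a) / 2) := by
              rw [← Finset.sum_add_distrib, ← Finset.sum_add_distrib]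
              exact Finset.sum_congr rfl fun u _ => by ring
            linarith
          simp only
          rw [e]
          exact add_le_add (bE1 U) (bE2 U)
      _ = ∑ u, (K1 u + K2 u / (2 * a)) *
            ∫ U, Te k U u ∂(gm (n := 2 * m) (L := 2 * m') (l := l) μ k β) +
          (2 * N ^ 4 * l ^ 2 / Real.sqrt β * G + ∑ u, K2 u * (a / 2)) := by
          rw [integral_add (intg _ cT3) (integrable_const _), integral_const,
            integral_finsetSum _ fun u _ => intg _ (cT2 u)]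
          simp only [integral_const_mul, probReal_univ, one_smul]
      _ ≤ ∑ u, (K1 u + K2 u / (2 * a)) * τ +
          (2 * N ^ 4 * l ^ 2 / Real.sqrt β * G + ∑ u, K2 u * (a / 2)) := by
          refine add_le_add_left (Finset.sum_le_sum fun u _ =>
            mul_le_mul_of_nonneg_left (iTe u) ?_) _
          have := k1 u
          have := k2 u
          positivity
      _ = (∑ u, K1 u) * τ + 2 * N ^ 4 * l ^ 2 / Real.sqrt β * G + (∑ u, K2 u) * a := by
          have h8 : ∑ u, (K1 u + K2 u / (2 * a)) * τ + ∑ u, K2 u * (a / 2) =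
              (∑ u, K1 u) * τ + (∑ u, K2 u) * a := by
            rw [Finset.sum_mul, Finset.sum_mul, ← Finset.sum_add_distrib,
              ← Finset.sum_add_distrib]
            refine Finset.sum_congr rfl fun u _ => ?_
            have : K2 u / (2 * a) * τ = K2 u * (a / 2) := by
              rw [show K2 u / (2 * a) * τ = K2 u / 2 * (τ / a) by ring, haa]
              ring
            linarith
          linarith
      _ = _ := by
          have h9 : ∑ u, K1 u = 18 * Real.sqrt β * N ^ 4 * l ^ 2 * G := by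
            rw [hK1, hG]
            simp only
            rw [Finset.sum_comm, Finset.mul_sum]
            refine Finset.sum_congr rfl fun j _ => ?_
            simp only [← Finset.mul_sum, Finset.sum_add_distrib]
            rw [sum_shift (fun u => ‖g j u‖), sum_shift (fun u => ‖g j u‖)]
            ring
          have h10 : ∑ u, K2 u = N ^ 6 * l ^ 3 * WG := by
            rw [hK2, hWG]
            simp only [Finset.mul_sum]
            calc ∑ u, ∑ j ∈ J, ∑ i ∈ J, ‖w i u‖ * (N ^ 6 * l ^ 3 * ‖g j u‖) =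
                ∑ j ∈ J, ∑ i ∈ J, ∑ u, ‖w i u‖ * (N ^ 6 * l ^ 3 * ‖g j u‖) := by
                  rw [Finset.sum_comm]
                  exact Finset.sum_congr rfl fun j _ => Finset.sum_comm
              _ = _ := by
                  rw [Finset.sum_comm]
                  exact Finset.sum_congr rfl fun i _ => Finset.sum_congr rfl fun j _ =>
                    Finset.sum_congr rfl fun u _ => by ring
          rw [h9, h10]
  have hfin := final_bound hN1 hl1 hC0 hβ (G := G) (WG := WG) (by positivity) (by positivity)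
  have hmain := char (gm μ k β) (X := fun U : Link (2 * m) (2 * m') l → SU N =>
    Real.sqrt β * P U) (continuous_const.mul cP) cE1 cE2 hs0 he (hb.trans hfin)
  have hex : -∑ j ∈ J, (N : ℝ) * j.1 ^ 2 * l ^ 2 / 4 * (∑ u, w j u * conj (g j u)).re =
      -(s / 2) := by
    rw [hsdef, Finset.sum_div]
    congr 1
    exact Finset.sum_congr rfl fun j _ => by ring
  rw [expect_eq, expect_eq, hex]
  exact hmain

end

end Run7.h863.MQ
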