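import Pool.Agent.Run7.h863.MQ.F1

open MeasureTheory Matrix Filter Topology
open scoped Matrix.Norms.Frobenius ComplexConjugate

namespace Run7.h863.MQ

open Run7.h4.YM Run7.h630.ML Run7.h630.MQ

noncomputable section

set_option maxHeartbeats 400000

section

variable {n L : ℕ} [NeZero n] [NeZero L]

theorem sum_shift (f : ZMod n × ZMod L → ℝ) (v : ZMod n × ZMod L) :
    ∑ u, f (u + v) = ∑ u, f u :=
  Equiv.sum_comp (Equiv.addRight v) f

theorem sum_shift' (f : ZMod n × ZMod L → ℝ) (v : ZMod n × ZMod L) :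
    ∑ u, f (u - v) = ∑ u, f u :=
  Equiv.sum_comp (Equiv.subRight v) f

theorem re_mul_conj_le (a b : ℂ) : (a * conj b).re ≤ (‖a‖ ^ 2 + ‖b‖ ^ 2) / 2 := by
  have h1 : (a * conj b).re ≤ ‖a * conj b‖ := Complex.re_le_norm _
  rw [norm_mul, Complex.norm_conj] at h1
  nlinarith [sq_nonneg (‖a‖ - ‖b‖)]

theorem KK_pos {x0 : ℝ} (h0 : 0 ≤ x0) (g : ZMod n × ZMod L → ℂ) :
    0 ≤ (∑ u, KK x0 g u * conj (g u)).re := by
  rw [Complex.re_sum]
  have h1 : ∀ u, 2 * ‖g u‖ ^ 2 - (‖g (u + (1, 0))‖ ^ 2 + ‖g (u - (1, 0))‖ ^ 2 +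
      ‖g (u + (0, 1))‖ ^ 2 + ‖g (u - (0, 1))‖ ^ 2) / 2 ≤ (KK x0 g u * conj (g u)).re := by
    intro u
    have e : KK x0 g u * conj (g u) = (((4 + x0) * ‖g u‖ ^ 2 : ℝ) : ℂ) -
        g (u + (1, 0)) * conj (g u) - g (u - (1, 0)) * conj (g u) -
        g (u + (0, 1)) * conj (g u) - g (u - (0, 1)) * conj (g u) := by
      have h2 : g u * conj (g u) = ((‖g u‖ ^ 2 : ℝ) : ℂ) := by
        rw [Complex.mul_conj, Complex.normSq_eq_norm_sq]
      unfold KK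
      push_cast at h2 ⊢
      linear_combination (4 + (x0 : ℂ)) * h2
    rw [e]
    simp only [Complex.sub_re, Complex.ofReal_re]
    have a1 := re_mul_conj_le (g (u + (1, 0))) (g u)
    have a2 := re_mul_conj_le (g (u - (1, 0))) (g u)
    have a3 := re_mul_conj_le (g (u + (0, 1))) (g u)
    have a4 := re_mul_conj_le (g (u - (0, 1))) (g u)
    have a5 : 0 ≤ x0 * ‖g u‖ ^ 2 := mul_nonneg h0 (by positivity)
    nlinarith
  refine le_trans ?_ (Finset.sum_le_sum fun u _ => h1 u)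
  rw [Finset.sum_sub_distrib, ← Finset.mul_sum, ← Finset.sum_div]
  simp only [Finset.sum_add_distrib]
  rw [sum_shift (fun u => ‖g u‖ ^ 2), sum_shift' (fun u => ‖g u‖ ^ 2),
    sum_shift (fun u => ‖g u‖ ^ 2), sum_shift' (fun u => ‖g u‖ ^ 2)]
  linarith

theorem KK_smul (x0 : ℝ) (t : ℂ) (g : ZMod n × ZMod L → ℂ) (u : ZMod n × ZMod L) :
    KK x0 (fun u => t * g u) u = t * KK x0 g u := by
  unfold KK
  ring

end

section

variable {N n L l : ℕ} [NeZero N] [NeZero n] [NeZero L] [NeZero l]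

theorem norm_ph (k : ℕ) (j : ℕ × ℤ) (y : ZMod l) : ‖ph N k j y‖ = 1 := by
  unfold ph
  rw [mul_comm, show (((mass N k j : ℝ) : ℂ) * ((y - 1 : ZMod l).val : ℂ) / (l : ℂ)) =
    ((mass N k j * (y - 1 : ZMod l).val / l : ℝ) : ℂ) by push_cast; rfl]
  exact Complex.norm_exp_ofReal_mul_I _

theorem sum_av (k : ℕ) (j : ℕ × ℤ) (h : ZMod n × ZMod L → ℂ) :
    ∑ x : Site n L l, ‖av N k j h x‖ = l ^ 2 * ∑ u, ‖h u‖ := by
  have e : ∀ x : Site n L l, ‖av N k j h x‖ = ‖h (x.1, x.2.1)‖ := fun x => by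
    unfold av
    rw [norm_mul, norm_ph, mul_one]
  simp only [e]
  rw [Fintype.sum_prod_type, Fintype.sum_prod_type, Finset.mul_sum]
  refine Finset.sum_congr rfl fun a _ => ?_
  rw [Fintype.sum_prod_type, Finset.mul_sum]
  refine Finset.sum_congr rfl fun b _ => ?_
  simp only [Finset.sum_const, Finset.card_univ, Fintype.card_prod, ZMod.card, nsmul_eq_mul]
  push_cast
  ring

/-- the derivative of the action -/
theorem b1 (hA : S_A) {k : ℕ} (hk : Nat.Coprime k N) (U : Link n L l → SU N) (j : ℕ × ℤ)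
    (h1 : 1 ≤ j.1) (h2 : j.1 < N) {β : ℝ} (hβ : 1 ≤ β) (w g : ZMod n × ZMod L → ℂ)
    (hw : w = KK (2 - 2 * Real.cos (mass N k j / l)) g) :
    |β * dS k U (Yv j.1 (av N k j fun u => ((-(j.1 / Real.sqrt β) : ℝ) : ℂ) * g u) U) -
      Real.sqrt β * (∑ u, w u * md k U j u).re| ≤
    Real.sqrt β * (3 * N ^ 4 * l ^ 2 *
      ∑ u, (4 * ‖g u‖ + ‖g (u + (1, 0))‖ + ‖g (u + (0, 1))‖) * Te k U u) := by
  have hβ0 : 0 < β := by linarith
  have hs : 0 < Real.sqrt β := Real.sqrt_pos.2 hβ0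
  have hss : Real.sqrt β * Real.sqrt β = β := Real.mul_self_sqrt hβ0.le
  have hc : (0 : ℝ) < j.1 := by exact_mod_cast h1
  set κ : ℝ := j.1 / Real.sqrt β with hκ
  have hκ0 : 0 < κ := div_pos hc hs
  have key := hA N n L l k hk U j h1 h2 (fun u => ((-κ : ℝ) : ℂ) * g u)
  have e1 : ∑ u, (KK (2 - 2 * Real.cos (mass N k j / l))
      (fun u => ((-κ : ℝ) : ℂ) * g u) u * md k U j u).re = -κ * (∑ u, w u * md k U j u).re := by
    rw [Complex.re_sum, Finset.mul_sum]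
    refine Finset.sum_congr rfl fun u _ => ?_
    rw [KK_smul, hw, mul_assoc, Complex.re_ofReal_mul]
  have hn : ∀ u, ‖((-κ : ℝ) : ℂ) * g u‖ = κ * ‖g u‖ := fun u => by
    rw [norm_mul, Complex.norm_real, Real.norm_eq_abs, abs_neg, abs_of_pos hκ0]
  simp only [hn] at key
  rw [e1] at key
  have e2 : ∑ u, (4 * (κ * ‖g u‖) + κ * ‖g (u + (1, 0))‖ + κ * ‖g (u + (0, 1))‖) * Te k U u =
      κ * ∑ u, (4 * ‖g u‖ + ‖g (u + (1, 0))‖ + ‖g (u + (0, 1))‖) * Te k U u := by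
    rw [Finset.mul_sum]
    exact Finset.sum_congr rfl fun u _ => by ring
  rw [e2] at key
  set DD := dS k U (Yv j.1 (av N k j fun u => ((-κ : ℝ) : ℂ) * g u) U)
  set YY := (∑ u, w u * md k U j u).re
  set TT := ∑ u, (4 * ‖g u‖ + ‖g (u + (1, 0))‖ + ‖g (u + (0, 1))‖) * Te k U u
  have hq : β / j.1 * κ = Real.sqrt β := by
    rw [hκ]
    field_simp
    nlinarith
  have e3 : β * DD - Real.sqrt β * YY = β / j.1 * (j.1 * DD + -κ * YY) := by
    rw [← hq]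
    field_simp
    ring
  rw [e3, abs_mul, abs_of_pos (div_pos hβ0 hc)]
  calc β / j.1 * |j.1 * DD + -κ * YY| ≤ β / j.1 * (3 * N ^ 4 * l ^ 2 * (κ * TT)) :=
        mul_le_mul_of_nonneg_left key (div_pos hβ0 hc).le
    _ = (β / j.1 * κ) * (3 * N ^ 4 * l ^ 2 * TT) := by ring
    _ = _ := by rw [hq]

theorem abs_re_sum_mul_le {ι : Type*} (s : Finset ι) (a b : ι → ℂ) (t : ι → ℝ)
    (h : ∀ i ∈ s, ‖b i‖ ≤ t i) : |(∑ i ∈ s, a i * b i).re| ≤ ∑ i ∈ s, ‖a i‖ * t i := by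
  refine (Complex.abs_re_le_norm _).trans ((norm_sum_le _ _).trans ?_)
  refine Finset.sum_le_sum fun i hi => ?_
  rw [norm_mul]
  exact mul_le_mul_of_nonneg_left (h i hi) (norm_nonneg _)

/-- the derivative of the modes -/
theorem b2 (hB : S_B) {k : ℕ} (hk : Nat.Coprime k N) (U : Link n L l → SU N) {β : ℝ}
    (hβ : 1 ≤ β) (J : Finset (ℕ × ℤ)) (hJ : ∀ j ∈ J, 1 ≤ j.1 ∧ j.1 < N ∧ 0 < mass N k j ∧
      mass N k j ≤ Real.pi / 2 * l) (w : ℕ × ℤ → ZMod n × ZMod L → ℂ)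
    (g : ZMod n × ZMod L → ℂ) (j : ℕ × ℤ) (hj : j ∈ J) :
    |Real.sqrt β * ∑ i ∈ J, (∑ u, w i u * dmd k U (Yv j.1
        (av N k j fun u => ((-(j.1 / Real.sqrt β) : ℝ) : ℂ) * g u) U) i u).re -
      N * j.1 ^ 2 * l ^ 2 / 2 * (∑ u, w j u * conj (g u)).re| ≤
    ∑ i ∈ J, ∑ u, ‖w i u‖ * (N ^ 6 * l ^ 3 * (‖g u‖ * Real.sqrt (Te k U u))) := by
  have hβ0 : 0 < β := by linarith
  have hs : 0 < Real.sqrt β := Real.sqrt_pos.2 hβ0
  obtain ⟨h1, h2, h3, h4⟩ := hJ j hj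
  have hc : (0 : ℝ) < j.1 := by exact_mod_cast h1
  set κ : ℝ := j.1 / Real.sqrt β with hκ
  have hκ0 : 0 < κ := div_pos hc hs
  have hsk : Real.sqrt β * κ = j.1 := by
    rw [hκ]
    field_simp
  clear_value κ
  set dd : ℕ × ℤ → ZMod n × ZMod L → ℂ := fun i u => dmd k U (Yv j.1
        (av N k j fun u => ((-κ : ℝ) : ℂ) * g u) U) i u with hdd
  set de : ℕ × ℤ → ZMod n × ZMod L → ℂ := fun i u =>
    (if i = j then (1 / 2 * N * j.1 * l ^ 2 : ℂ) * conj (((-κ : ℝ) : ℂ) * g u) else 0) with hde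
  have key : ∀ i ∈ J, ∀ u, ‖dd i u + de i u‖ ≤
      N ^ 5 * l ^ 3 * (κ * ‖g u‖) * Real.sqrt (Te k U u) := by
    intro i hi u
    obtain ⟨i1, i2, i3, i4⟩ := hJ i hi
    have := hB N n L l k hk U i j i1 i2 h1 h2 i3 i4 h3 h4 (fun u => ((-κ : ℝ) : ℂ) * g u) u
    have hn : ‖((-κ : ℝ) : ℂ) * g u‖ = κ * ‖g u‖ := by
      rw [norm_mul, Complex.norm_real, Real.norm_eq_abs, abs_neg, abs_of_pos hκ0]
    rw [hn] at this
    exact this
  have e0 : ∑ i ∈ J, (∑ u, w i u * (dd i u + de i u)).re =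
      ∑ i ∈ J, (∑ u, w i u * dd i u).re + ∑ i ∈ J, (∑ u, w i u * de i u).re := by
    rw [← Finset.sum_add_distrib]
    refine Finset.sum_congr rfl fun i _ => ?_
    rw [← Complex.add_re, ← Finset.sum_add_distrib]
    congr 1
    exact Finset.sum_congr rfl fun u _ => by ring
  have e1 : ∑ i ∈ J, (∑ u, w i u * de i u).re =
      -(1 / 2 * N * j.1 * l ^ 2 * κ) * (∑ u, w j u * conj (g u)).re := by
    rw [Finset.sum_eq_single_of_mem j hj]
    · rw [← Complex.re_ofReal_mul, Finset.mul_sum]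
      congr 1
      refine Finset.sum_congr rfl fun u _ => ?_
      simp only [hde, if_true, map_mul, Complex.conj_ofReal]
      push_cast
      ring
    · intro i _ hij
      simp [hde, hij]
  have e2 : Real.sqrt β * ∑ i ∈ J, (∑ u, w i u * dd i u).re -
      N * j.1 ^ 2 * l ^ 2 / 2 * (∑ u, w j u * conj (g u)).re =
      Real.sqrt β * ∑ i ∈ J, (∑ u, w i u * (dd i u + de i u)).re := by
    rw [e0, e1]
    linear_combination (N * j.1 * l ^ 2 / 2 * (∑ u, w j u * conj (g u)).re : ℝ) * hsk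
  rw [e2, abs_mul, abs_of_pos hs]
  calc Real.sqrt β * |∑ i ∈ J, (∑ u, w i u * (dd i u + de i u)).re| ≤
      Real.sqrt β * ∑ i ∈ J, ∑ u, ‖w i u‖ *
        (N ^ 5 * l ^ 3 * (κ * ‖g u‖) * Real.sqrt (Te k U u)) := by
        refine mul_le_mul_of_nonneg_left ?_ hs.le
        refine (Finset.abs_sum_le_sum_abs _ _).trans (Finset.sum_le_sum fun i hi => ?_)
        exact abs_re_sum_mul_le _ _ _ _ fun u _ => key i hi u
    _ = ∑ i ∈ J, ∑ u, ‖w i u‖ *
        (N ^ 5 * l ^ 3 * (j.1 * ‖g u‖) * Real.sqrt (Te k U u)) := by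
        rw [Finset.mul_sum]
        refine Finset.sum_congr rfl fun i _ => ?_
        rw [Finset.mul_sum]
        refine Finset.sum_congr rfl fun u _ => ?_
        rw [← hsk]
        ring
    _ ≤ _ := by
        refine Finset.sum_le_sum fun i _ => Finset.sum_le_sum fun u _ =>
          mul_le_mul_of_nonneg_left ?_ (norm_nonneg _)
        have hN : (j.1 : ℝ) ≤ N := by exact_mod_cast h2.le
        have h5 : (0 : ℝ) ≤ N ^ 5 * l ^ 3 * (‖g u‖ * Real.sqrt (Te k U u)) := by positivity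
        calc (N : ℝ) ^ 5 * l ^ 3 * (j.1 * ‖g u‖) * Real.sqrt (Te k U u) =
            j.1 * (N ^ 5 * l ^ 3 * (‖g u‖ * Real.sqrt (Te k U u))) := by ring
          _ ≤ N * (N ^ 5 * l ^ 3 * (‖g u‖ * Real.sqrt (Te k U u))) :=
            mul_le_mul_of_nonneg_right hN h5
          _ = _ := by ring

end

end

end Run7.h863.MQ
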